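import Pool.Agent.Helper69.UX.StA
import Pool.Agent.Helper94.PV.M_UBD

/-!
# Project UX (MP_e12aa9_pr), module MAX: few classes of size `T+1`
-/

set_option autoImplicit false

namespace Pool.Agent.Helper65.UX

open Finset Filter Pool.Agent.Helper82.CN Pool.Agent.Helper11.PV Pool.Agent.Helper69.VX
  Pool.Agent.Helper69.UX

open Classical in
/-- probability that all the bits of `B` vanish -/
theorem EE_vanish {ι : Type} [Fintype ι] [DecidableEq ι] (p : ℝ) (B : Finset ι) :
    EE p (fun ω : ι → Bool => if (∀ i ∈ B, ω i = false) then (1 : ℝ) else 0) =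
      (1 - p) ^ B.card := by
  have h1 : (fun ω : ι → Bool => if (∀ i ∈ B, ω i = false) then (1 : ℝ) else 0) =
      fun ω : ι → Bool => ∏ i, (fun (i : ι) (c : Bool) =>
        if i ∈ B then (if c = false then (1 : ℝ) else 0) else 1) i (ω i) := by
    funext ω
    by_cases h : ∀ i ∈ B, ω i = false
    · rw [if_pos h]
      symm
      apply Finset.prod_eq_one
      intro i _
      by_cases hi : i ∈ B
      · simp only [hi, if_true, h i hi]
      · simp only [hi, if_false]
    · rw [if_neg h]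
      symm
      push Not at h
      obtain ⟨i, hi, hω⟩ := h
      apply Finset.prod_eq_zero (Finset.mem_univ i)
      simp only [hi, if_true]
      rw [if_neg hω]
  rw [h1, Pool.Agent.Helper94.PV.EE_prod_UBD p (fun (i : ι) (c : Bool) =>
    if i ∈ B then (if c = false then (1 : ℝ) else 0) else 1)]
  have h2 : ∀ i : ι, (∑ c : Bool, bw p c *
      (if i ∈ B then (if c = false then (1 : ℝ) else 0) else 1)) = if i ∈ B then 1 - p else 1 := by
    intro i
    by_cases hi : i ∈ B
    · simp [hi, bw]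
    · simp [hi, bw]
  rw [Finset.prod_congr rfl (fun i _ => h2 i), Finset.prod_ite_mem, Finset.univ_inter,
    Finset.prod_const]

open Classical in
/-- the pairs inside `S` -/
noncomputable def prs {n : ℕ} (S : Finset (Fin n)) : Finset (Sym2 (Fin n)) :=
  S.offDiag.image (fun q => s(q.1, q.2))

theorem prs_card {n : ℕ} (S : Finset (Fin n)) : (prs S).card = S.card.choose 2 := by
  classical
  rw [← Sym2.card_image_offDiag S]
  rfl

theorem mem_prs {n : ℕ} (S : Finset (Fin n)) (u v : Fin n) :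
    s(u, v) ∈ prs S ↔ u ∈ S ∧ v ∈ S ∧ u ≠ v := by
  classical
  unfold prs
  rw [Finset.mem_image]
  constructor
  · rintro ⟨⟨a, b⟩, hab, he⟩
    rw [Finset.mem_offDiag] at hab
    simp only at hab he
    rw [Sym2.eq_iff] at he
    rcases he with ⟨rfl, rfl⟩ | ⟨rfl, rfl⟩
    · exact hab
    · exact ⟨hab.2.1, hab.1, hab.2.2.symm⟩
  · intro h
    exact ⟨(u, v), Finset.mem_offDiag.2 h, rfl⟩

/-- the bits of disjoint sets are disjoint -/
theorem prs_disjoint {n : ℕ} (S S' : Finset (Fin n)) (h : Disjoint S S') :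
    Disjoint (prs S) (prs S') := by
  rw [Finset.disjoint_left]
  intro e he he'
  induction e using Sym2.ind with
  | _ u v =>
    rw [mem_prs] at he he'
    exact (Finset.disjoint_left.1 h) he.1 he'.1

open Classical in
/-- probability that all members of a family of disjoint `k`-sets are independent -/
theorem fam_prob (p : ℝ) (n k : ℕ) (F : Finset (Finset (Fin n)))
    (hk : ∀ A ∈ F, A.card = k) (hd : ∀ A ∈ F, ∀ B ∈ F, A ≠ B → Disjoint A B) :
    EE p (fun ω : Sym2 (Fin n) → Bool => if prp ω F then (1 : ℝ) else 0) =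
      ((1 - p) ^ (k.choose 2)) ^ F.card := by
  have h1 : (fun ω : Sym2 (Fin n) → Bool => if prp ω F then (1 : ℝ) else 0) =
      fun ω => if (∀ i ∈ F.biUnion prs, ω i = false) then (1 : ℝ) else 0 := by
    funext ω
    congr 1
    apply propext
    constructor
    · intro h e he
      rw [Finset.mem_biUnion] at he
      obtain ⟨A, hA, he⟩ := he
      induction e using Sym2.ind with
      | _ u v =>
        rw [mem_prs] at he
        exact h A hA u he.1 v he.2.1 he.2.2
    · intro h A hA u hu v hv huv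
      exact h _ (Finset.mem_biUnion.2 ⟨A, hA, (mem_prs A u v).2 ⟨hu, hv, huv⟩⟩)
  rw [h1, EE_vanish, Finset.card_biUnion (fun A hA B hB hAB => prs_disjoint A B (hd A hA B hB hAB)),
    Finset.sum_congr rfl (fun A hA => by rw [prs_card, hk A hA]), Finset.sum_const, smul_eq_mul,
    mul_comm, pow_mul]

open Classical in
theorem Pt_disj {V : Type} [Fintype V] {P : Finset (Finset V)} (h : P ∈ Pt V) :
    ∀ A ∈ P, ∀ B ∈ P, A ≠ B → Disjoint A B := by
  unfold Pt at h
  rw [Finset.mem_filter] at h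
  exact h.2.2.1

open Classical in
/-- first moment: proper partitions with many classes of size `k` -/
theorem max_first (p : ℝ) (n k j : ℕ) (h0 : 0 ≤ p) (h1 : p ≤ 1) :
    PP p (fun ω : Sym2 (Fin n) → Bool => ∃ P ∈ Pt (Fin n), prp ω P ∧
      j ≤ (P.filter (fun A => A.card = k)).card) ≤ Mk p n k ^ j / (j.factorial : ℝ) := by
  set 𝒮 : Finset (Finset (Finset (Fin n))) :=
    (((univ : Finset (Fin n)).powersetCard k).powersetCard j).filter
      (fun F => ∀ A ∈ F, ∀ B ∈ F, A ≠ B → Disjoint A B) with h𝒮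
  have step : PP p (fun ω : Sym2 (Fin n) → Bool => ∃ P ∈ Pt (Fin n), prp ω P ∧
      j ≤ (P.filter (fun A => A.card = k)).card) ≤
      EE p (fun ω => ∑ F ∈ 𝒮, if prp ω F then (1 : ℝ) else 0) := by
    unfold PP
    apply EE_mono h0 h1
    intro ω
    by_cases h : ∃ P ∈ Pt (Fin n), prp ω P ∧ j ≤ (P.filter (fun A => A.card = k)).card
    · rw [if_pos h]
      obtain ⟨P, hP, hpr, hj⟩ := h
      obtain ⟨F, hF, hFc⟩ := Finset.exists_subset_card_eq hj
      have hPd := Pt_disj hP
      have hmem : F ∈ 𝒮 := by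
        rw [h𝒮, Finset.mem_filter, Finset.mem_powersetCard]
        refine ⟨⟨fun A hA => ?_, hFc⟩, fun A hA B hB hAB => ?_⟩
        · rw [Finset.mem_powersetCard]
          exact ⟨Finset.subset_univ A, (Finset.mem_filter.1 (hF hA)).2⟩
        · exact hPd A (Finset.mem_filter.1 (hF hA)).1 B (Finset.mem_filter.1 (hF hB)).1 hAB
      have hprF : prp ω F := fun A hA => hpr A (Finset.mem_filter.1 (hF hA)).1
      calc (1 : ℝ) = (if prp ω F then (1 : ℝ) else 0) := by rw [if_pos hprF]
        _ ≤ _ := Finset.single_le_sum (f := fun F => if prp ω F then (1 : ℝ) else 0)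
          (fun F' _ => by split_ifs <;> norm_num) hmem
    · rw [if_neg h]
      exact Finset.sum_nonneg fun F' _ => by split_ifs <;> norm_num
  refine step.trans ?_
  rw [EE_sum]
  have h4 : ∀ F ∈ 𝒮, EE p (fun ω : Sym2 (Fin n) → Bool => if prp ω F then (1 : ℝ) else 0) =
      ((1 - p) ^ (k.choose 2)) ^ j := by
    intro F hF
    rw [h𝒮, Finset.mem_filter, Finset.mem_powersetCard] at hF
    rw [fam_prob p n k F (fun A hA => (Finset.mem_powersetCard.1 (hF.1.1 hA)).2) hF.2, hF.1.2]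
  rw [Finset.sum_congr rfl h4, Finset.sum_const, nsmul_eq_mul]
  have hq : (0 : ℝ) ≤ ((1 - p) ^ (k.choose 2)) ^ j := pow_nonneg (pow_nonneg (by linarith) _) _
  have hc : (𝒮.card : ℝ) ≤ (n.choose k : ℝ) ^ j / (j.factorial : ℝ) := by
    have h5 : 𝒮.card ≤ (n.choose k).choose j := by
      calc 𝒮.card ≤ (((univ : Finset (Fin n)).powersetCard k).powersetCard j).card :=
            Finset.card_le_card (Finset.filter_subset _ _)
        _ = _ := by rw [Finset.card_powersetCard, Finset.card_powersetCard, Finset.card_univ,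
            Fintype.card_fin]
    calc (𝒮.card : ℝ) ≤ (((n.choose k).choose j : ℕ) : ℝ) := by exact_mod_cast h5
      _ ≤ _ := by
        have := Nat.choose_le_pow_div (α := ℝ) j (n.choose k)
        exact_mod_cast this
  calc (𝒮.card : ℝ) * ((1 - p) ^ (k.choose 2)) ^ j ≤
      ((n.choose k : ℝ) ^ j / (j.factorial : ℝ)) * ((1 - p) ^ (k.choose 2)) ^ j :=
        mul_le_mul_of_nonneg_right hc hq
    _ = Mk p n k ^ j / (j.factorial : ℝ) := by
        unfold Mk
        rw [mul_pow]
        ring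

/-- `Mk ≤ e^hv` -/
theorem Mk_le_exp_hv (p : ℝ) (n k : ℕ) (hp : p < 1) (hn : 1 ≤ n) :
    Mk p n k ≤ Real.exp (hv p n k) := by
  have hn0 : (0 : ℝ) < n := by exact_mod_cast hn
  have hf : (0 : ℝ) < (k.factorial : ℝ) := by exact_mod_cast k.factorial_pos
  have hq : (0 : ℝ) < 1 - p := by linarith
  have e1 : Real.exp (hv p n k) = (n : ℝ) ^ k / (k.factorial : ℝ) * (1 - p) ^ (k.choose 2) := by
    unfold hv bb
    rw [one_div, Real.log_inv, mul_neg, sub_neg_eq_add, Real.exp_add, Real.exp_sub, Real.exp_log hf,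
      ← Real.log_pow, ← Real.log_pow, Real.exp_log (pow_pos hn0 _), Real.exp_log (pow_pos hq _)]
  rw [e1]
  unfold Mk
  apply mul_le_mul_of_nonneg_right _ (pow_nonneg hq.le _)
  exact Nat.choose_le_pow_div (α := ℝ) k n

/-- MAX -/
theorem hMAX : StMkb → StMAX := by
  intro hM p ε hp hp2 hε hε2
  have hp1 : p < 1 := by
    have : 0 < 1 / Real.exp 2 := by positivity
    linarith
  obtain ⟨n1, hn1⟩ := hM p 1 ε hp hp1 one_pos hε
  have t1 : Tendsto (fun n : ℕ => (n : ℝ) ^ ε) atTop atTop :=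
    (tendsto_rpow_atTop hε).comp tendsto_natCast_atTop_atTop
  have t2 : ∀ᶠ n : ℕ in atTop, Real.exp 2 ≤ (n : ℝ) ^ ε := t1.eventually_ge_atTop _
  have t3 : ∀ᶠ n : ℕ in atTop, 3 * Real.log n ≤ (n : ℝ) ^ (1 / 2 : ℝ) := by
    have h := (isLittleO_log_rpow_atTop (show (0 : ℝ) < 1 / 2 by norm_num)).comp_tendsto
      tendsto_natCast_atTop_atTop
    have h2 := h.bound (show (0 : ℝ) < 1 / 3 by norm_num)
    filter_upwards [h2, eventually_ge_atTop 1] with n hn hn1
    simp only [Function.comp_apply] at hn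
    have hn0 : (1 : ℝ) ≤ n := by exact_mod_cast hn1
    rw [Real.norm_of_nonneg (Real.log_nonneg hn0),
      Real.norm_of_nonneg (Real.rpow_nonneg (by linarith) _)] at hn
    linarith
  obtain ⟨n2, hn2⟩ := eventually_atTop.1 (t2.and t3)
  refine ⟨max n1 (max n2 1), fun n T th hn hW => ?_⟩
  have hnn1 : n1 ≤ n := le_trans (le_max_left _ _) hn
  have hnn2 : n2 ≤ n := le_trans (le_trans (le_max_left _ _) (le_max_right _ _)) hn
  have hnn3 : 1 ≤ n := le_trans (le_trans (le_max_right _ _) (le_max_right _ _)) hn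
  have hnr : (1 : ℝ) ≤ n := by exact_mod_cast hnn3
  have hn0 : (0 : ℝ) < n := by linarith
  obtain ⟨hW1, hW2, hW3⟩ := hW
  obtain ⟨g2, g3⟩ := hn2 n hnn2
  have hk := hn1 n (T + 1) hnn1 (by
    have : (a0 p n : ℝ) = (T : ℝ) + 1 + th := hW1
    have h2 : ((T + 1 : ℕ) : ℝ) - Pool.Agent.Helper82.CN.al p n = -th := by
      have h3 : Pool.Agent.Helper82.CN.al p n = (T : ℝ) + 1 + th := hW1
      rw [h3]; push_cast; ring
    rw [h2, abs_neg, abs_of_nonneg (by linarith)]
    linarith)
  have hal : Pool.Agent.Helper82.CN.al p n - ((T + 1 : ℕ) : ℝ) = th := by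
    have h3 : Pool.Agent.Helper82.CN.al p n = (T : ℝ) + 1 + th := hW1
    rw [h3]; push_cast; ring
  rw [hal] at hk
  have hhv : hv p n (T + 1) ≤ (th + ε) * Real.log n := by
    have := (abs_le.1 hk).2
    linarith
  have hMk : Mk p n (T + 1) ≤ (n : ℝ) ^ (th + ε) := by
    refine (Mk_le_exp_hv p n (T + 1) hp1 hnn3).trans ?_
    rw [Real.rpow_def_of_pos hn0]
    apply Real.exp_le_exp.2
    linarith
  set j : ℕ := ⌈(n : ℝ) ^ (th + 2 * ε)⌉₊ with hj
  have hjr : (n : ℝ) ^ (th + 2 * ε) ≤ (j : ℝ) := Nat.le_ceil _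
  have hMk0 : 0 ≤ Mk p n (T + 1) := by
    unfold Mk
    exact mul_nonneg (Nat.cast_nonneg _) (pow_nonneg (by linarith) _)
  have hMj : Mk p n (T + 1) ≤ Real.exp (-2) * j := by
    have e1 : (n : ℝ) ^ (th + 2 * ε) = (n : ℝ) ^ (th + ε) * (n : ℝ) ^ ε := by
      rw [← Real.rpow_add hn0]; congr 1; ring
    have e2 : Real.exp 2 * Mk p n (T + 1) ≤ (j : ℝ) := by
      calc Real.exp 2 * Mk p n (T + 1) ≤ (n : ℝ) ^ ε * (n : ℝ) ^ (th + ε) :=
            mul_le_mul g2 hMk hMk0 (Real.rpow_nonneg hn0.le _)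
        _ = (n : ℝ) ^ (th + 2 * ε) := by rw [e1]; ring
        _ ≤ j := hjr
    have e3 : Real.exp (-2) * Real.exp 2 = 1 := by rw [← Real.exp_add]; simp
    calc Mk p n (T + 1) = Real.exp (-2) * (Real.exp 2 * Mk p n (T + 1)) := by
          rw [← mul_assoc, e3, one_mul]
      _ ≤ Real.exp (-2) * j := mul_le_mul_of_nonneg_left e2 (Real.exp_pos _).le
  have hev : PP p (fun ω : Sym2 (Fin n) → Bool => ∃ P ∈ Pt (Fin n), prp ω P ∧
      (n : ℝ) ^ (th + 2 * ε) ≤ (P.filter (fun A => A.card = T + 1)).card) ≤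
      PP p (fun ω : Sym2 (Fin n) → Bool => ∃ P ∈ Pt (Fin n), prp ω P ∧
      j ≤ (P.filter (fun A => A.card = T + 1)).card) := by
    unfold PP
    apply EE_mono hp.le hp1.le
    intro ω
    by_cases h : ∃ P ∈ Pt (Fin n), prp ω P ∧
      (n : ℝ) ^ (th + 2 * ε) ≤ (P.filter (fun A => A.card = T + 1)).card
    · rw [if_pos h, if_pos]
      obtain ⟨P, hP, hpr, hc⟩ := h
      exact ⟨P, hP, hpr, Nat.ceil_le.2 hc⟩
    · rw [if_neg h]
      split_ifs <;> norm_num
  refine hev.trans ((max_first p n (T + 1) j hp.le hp1.le).trans ?_)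
  have hfj : (0 : ℝ) < (j.factorial : ℝ) := by exact_mod_cast j.factorial_pos
  calc Mk p n (T + 1) ^ j / (j.factorial : ℝ) ≤ (Real.exp (-2) * j) ^ j / (j.factorial : ℝ) :=
        div_le_div_of_nonneg_right (pow_le_pow_left₀ hMk0 hMj j) hfj.le
    _ = Real.exp (-2) ^ j * ((j : ℝ) ^ j / (j.factorial : ℝ)) := by rw [mul_pow]; ring
    _ ≤ Real.exp (-2) ^ j * Real.exp j :=
        mul_le_mul_of_nonneg_left (Real.pow_div_factorial_le_exp (j : ℝ) (Nat.cast_nonneg _) j)
          (pow_nonneg (Real.exp_pos _).le _)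
    _ = Real.exp (-(j : ℝ)) := by
        rw [← Real.exp_nat_mul, ← Real.exp_add]; congr 1; ring
    _ ≤ (n : ℝ) ^ (-(3 : ℝ)) := by
        rw [Real.rpow_def_of_pos hn0]
        apply Real.exp_le_exp.2
        have e1 : (n : ℝ) ^ (1 / 2 : ℝ) ≤ (n : ℝ) ^ (th + 2 * ε) :=
          Real.rpow_le_rpow_of_exponent_le hnr (by linarith)
        linarith

end Pool.Agent.Helper65.UX
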